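import Pool.Agent.W423.NT.Defs

set_option autoImplicit false
set_option linter.all false

/-! Project NT: commutation rules for sequences indexed by `ℕ ^ d` (after `W933.ND.Alg`). -/

namespace Pool.Agent.W356.NT

open MvPolynomial Pool.Agent.W423.NT
open Pool.Agent.W425.ND (tr dC)

lemma eval_aeval {σ R : Type} [CommRing R] (g : σ → R) (h : σ → MvPolynomial σ R)
    (p : MvPolynomial σ R) : eval g (aeval h p) = eval (fun o => eval g (h o)) p := by
  induction p using MvPolynomial.induction_on with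
  | C a => simp
  | add p q hp hq => simp only [map_add, hp, hq]
  | mul_X p n hp => simp only [map_mul, hp, aeval_X, eval_X]

section
variable {d N : ℕ} {R : Type} [CommRing R]

lemma lowQ_apply (δ : Fin N → ℤ) (u : FnQ d N R) (n : Fin d → ℕ) (e : Fin N →₀ ℕ) :
    lowQ δ u n e =
    if ∀ i, 0 ≤ (e i : ℤ) + δ i then
      ((∏ i, ((e i : ℤ) + δ i).toNat.descFactorial (δ i).toNat : ℕ) : R) * u n (tr δ e)
      else 0 := rfl

lemma tr_apply (δ : Fin N → ℤ) (e : Fin N →₀ ℕ) (i : Fin N) :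
    tr δ e i = ((e i : ℤ) + δ i).toNat := rfl

lemma tr_cast (δ : Fin N → ℤ) (e : Fin N →₀ ℕ) (i : Fin N) (h : 0 ≤ (e i : ℤ) + δ i) :
    ((tr δ e i : ℕ) : R) = (e i : R) + ((δ i : ℤ) : R) := by
  rw [tr_apply]
  have h1 : ((((e i : ℤ) + δ i).toNat : ℕ) : ℤ) = (e i : ℤ) + δ i := Int.toNat_of_nonneg h
  have h2 : (((((e i : ℤ) + δ i).toNat : ℕ) : ℤ) : R) = (((e i : ℤ) + δ i : ℤ) : R) := by rw [h1]
  push_cast at h2
  exact h2

lemma lowQ_add (δ : Fin N → ℤ) (u w : FnQ d N R) : lowQ δ (u + w) = lowQ δ u + lowQ δ w := by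
  funext n e
  rw [addQ_apply, lowQ_apply, lowQ_apply, lowQ_apply]
  split_ifs
  · rw [addQ_apply, mul_add]
  · rw [add_zero]

lemma lowQ_smul (δ : Fin N → ℤ) (p : MvPolynomial (Fin d ⊕ Fin N) R) (u : FnQ d N R) :
    lowQ δ (p • u) = trQ δ p • lowQ δ u := by
  funext n e
  rw [smulQ_apply, lowQ_apply, lowQ_apply]
  split_ifs with h
  · rw [smulQ_apply]
    have : eval (evQ n e) (trQ δ p) = eval (evQ n (tr δ e)) p := by
      unfold trQ
      rw [eval_aeval]
      congr 2
      funext o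
      rcases o with t | i
      · simp [evQ]
      · simp [evQ, tr_cast δ e i (h i)]
    rw [this]
    ring
  · rw [mul_zero]

lemma smul_lowQ (δ : Fin N → ℤ) (p : MvPolynomial (Fin d ⊕ Fin N) R) (u : FnQ d N R) :
    p • lowQ δ u = lowQ δ (trQ (fun i => -δ i) p • u) := by
  funext n e
  rw [smulQ_apply, lowQ_apply, lowQ_apply]
  split_ifs with h
  · rw [smulQ_apply]
    have : eval (evQ n (tr δ e)) (trQ (fun i => -δ i) p) = eval (evQ n e) p := by
      unfold trQ
      rw [eval_aeval]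
      congr 2
      funext o
      rcases o with t | i
      · simp [evQ]
      · simp [evQ, tr_cast δ e i (h i)]
    rw [this]
    ring
  · rw [mul_zero]

lemma shQ_smul (L : ℕ) (p : MvPolynomial (Fin d ⊕ Fin N) R) (u : FnQ d N R) :
    shQ L (p • u) = shAQ L p • shQ L u := by
  funext n e
  show eval (evQ (fun t => n t + L) e) p * u (fun t => n t + L) e =
    eval (evQ n e) (shAQ L p) * u (fun t => n t + L) e
  congr 1
  unfold shAQ
  rw [eval_aeval]
  congr 2
  funext o
  rcases o with t | i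
  · simp [evQ]
  · simp [evQ]

lemma exists_shAQ (L : ℕ) (p : MvPolynomial (Fin d ⊕ Fin N) R) :
    ∃ q : MvPolynomial (Fin d ⊕ Fin N) R, shAQ L q = p := by
  refine ⟨aeval (Sum.elim (fun t => X (Sum.inl t) - C ((L : ℕ) : R)) fun i => X (Sum.inr i)) p, ?_⟩
  have h : (shAQ L).comp (aeval (Sum.elim (fun t => X (Sum.inl t) - C ((L : ℕ) : R))
      fun i => X (Sum.inr i) : Fin d ⊕ Fin N → MvPolynomial (Fin d ⊕ Fin N) R)) =
      AlgHom.id R (MvPolynomial (Fin d ⊕ Fin N) R) := by
    refine MvPolynomial.algHom_ext fun o => ?_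
    rcases o with t | i
    · simp [shAQ]
    · simp [shAQ]
  exact congrArg (fun φ => φ p) h

end

section
variable {d N : ℕ} {k : Type} [Field k]

lemma der_nat_mul (n : ℕ) (x : PowerSeries k) :
    PowerSeries.derivative k ((n : PowerSeries k) * x) =
      (n : PowerSeries k) * PowerSeries.derivative k x := by
  rw [Derivation.leibniz, Derivation.map_natCast, smul_zero, add_zero, smul_eq_mul]

lemma der_eval (n : Fin d → ℕ) (e : Fin N →₀ ℕ)
    (p : MvPolynomial (Fin d ⊕ Fin N) (PowerSeries k)) :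
    PowerSeries.derivative k (eval (evQ n e) p) = eval (evQ n e) (dC p) := by
  have hev : ∃ g : Fin d ⊕ Fin N → ℕ, ∀ o,
      (evQ n e : Fin d ⊕ Fin N → PowerSeries k) o = (g o : ℕ) :=
    ⟨Sum.elim n (fun i => e i), fun o => by rcases o with t | i <;> rfl⟩
  obtain ⟨g, hg⟩ := hev
  rw [MvPolynomial.eval_eq, map_sum]
  unfold dC
  rw [map_sum]
  refine Finset.sum_congr rfl fun m _ => ?_
  rw [eval_monomial, Finsupp.prod]
  have h : ∏ i ∈ m.support, (evQ n e : Fin d ⊕ Fin N → PowerSeries k) i ^ m i =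
      ((∏ i ∈ m.support, g i ^ m i : ℕ) : PowerSeries k) := by
    push_cast
    exact Finset.prod_congr rfl fun i _ => by rw [hg i]
  rw [h, mul_comm, der_nat_mul, mul_comm]

lemma nabQ_smul (p : MvPolynomial (Fin d ⊕ Fin N) (PowerSeries k)) (u : FnQ d N (PowerSeries k)) :
    nabQ (p • u) = p • nabQ u + dC p • u := by
  funext n e
  show PowerSeries.derivative k (eval (evQ n e) p * u n e) =
    eval (evQ n e) p * PowerSeries.derivative k (u n e) + eval (evQ n e) (dC p) * u n e
  rw [Derivation.leibniz, der_eval, smul_eq_mul, smul_eq_mul]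
  ring

lemma nabQ_lowQ (δ : Fin N → ℤ) (u : FnQ d N (PowerSeries k)) :
    nabQ (lowQ δ u) = lowQ δ (nabQ u) := by
  funext n e
  show PowerSeries.derivative k (lowQ δ u n e) = lowQ δ (nabQ u) n e
  rw [lowQ_apply, lowQ_apply]
  split_ifs
  · rw [der_nat_mul]
    rfl
  · rw [map_zero]

end

theorem alg : TaskALGQ := by
  refine ⟨fun d N R _ δ u w => lowQ_add δ u w, fun d N R _ δ p u => lowQ_smul δ p u,
    fun d N R _ δ p u => smul_lowQ δ p u, fun d N R _ L u w => rfl, fun d N R _ L δ u => rfl,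
    fun d N R _ L p u => shQ_smul L p u, fun d N R _ L p u => ?_, fun d N k _ u w => ?_,
    fun d N k _ p u => nabQ_smul p u, fun d N k _ δ u => nabQ_lowQ δ u, fun d N k _ L u => rfl⟩
  · obtain ⟨q, hq⟩ := exists_shAQ (d := d) (N := N) L p
    refine ⟨q, hq, ?_⟩
    rw [shQ_smul, hq]
  · funext n e
    show PowerSeries.derivative k (u n e + w n e) =
      PowerSeries.derivative k (u n e) + PowerSeries.derivative k (w n e)
    rw [map_add]

end Pool.Agent.W356.NT
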